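import Pool.Agent.Lib.MP_a78e1f_lc.R.Iface

/-!
Module EVX (helper9): evaluation of elements of `N` at a random point.
-/

universe u v w

open Cardinal Filter MeasureTheory

namespace Pool.Agent.Lib.MP_a78e1f_lc.H9

open Pool.Agent.Lib.MP_100a6c_lc
open Pool.Agent.Lib.MP_c5d73d_lc.F (pr)
open Pool.Agent.Lib.MP_e6fef2_lc
open Pool.Agent.Lib.MP_6d445e_gt
open Pool.Agent.Lib.MP_a78e1f_lc

section general

theorem countable_in {N : Set El.{u}} (hc : N.Countable) (T : Type u) :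
    Countable {t : T // In N t} := by
  have h0 : Countable N := hc.to_subtype
  refine Function.Injective.countable
    (f := fun φ : {t : T // In N t} => (⟨⟨T, φ.1⟩, φ.2⟩ : N)) ?_
  intro φ ψ h
  have h1 : (⟨T, φ.1⟩ : El.{u}) = ⟨T, ψ.1⟩ := congrArg Subtype.val h
  exact Subtype.ext (eq_of_heq (Sigma.mk.inj h1).2)

theorem club_all {ι : Type} [Countable ι] {p : ι → Set El.{u} → Prop}
    (h : ∀ i, ∀ᶠ N in club, p i N) : ∀ᶠ N in club, ∀ i, p i N := by
  rcases isEmpty_or_nonempty ι with hι | hι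
  · exact Filter.Eventually.of_forall fun g i => isEmptyElim i
  · obtain ⟨e, he⟩ := exists_surjective_nat ι
    have h1 := all_club.{u}.2.2.1 (fun n => p (e n)) fun n => h (e n)
    filter_upwards [h1] with g hg i
    obtain ⟨n, rfl⟩ := he i
    exact hg n

variable {A : Type u} [CompleteBooleanAlgebra A]

/-- Mixing of statements about almost every ultrafilter. -/
theorem ae_mix {T : Type v} (b : T → A) (hd : ∀ t t', t ≠ t' → b t ⊓ b t' = ⊥)
    (ht : ⨆ t, b t = ⊤) {P : T → Ult A → Prop} (hP : ∀ t, ∀ᶠ g in ae A, b t ∈ g → P t g) :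
    ∀ᶠ g in ae A, ∀ t, b t ∈ g → P t g := by
  choose D hD hX using hP
  refine ⟨fun n => {x | ∃ t, ∃ d ∈ D t n, x = b t ⊓ d}, fun n => ?_, fun g hg t hbt => ?_⟩
  · refine top_unique ?_
    rw [← ht]
    refine iSup_le fun t => ?_
    have h1 : b t = ⨆ d ∈ D t n, b t ⊓ d := by
      rw [← inf_sSup_eq, hD t n, inf_top_eq]
    rw [h1]
    exact iSup_le fun d => iSup_le fun hdd => le_sSup ⟨t, d, hdd, rfl⟩
  · refine hX t g (fun n => ?_) hbt
    obtain ⟨x, ⟨t', d, hd', rfl⟩, hx⟩ := hg n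
    have h1 := g.mem_inf.1 hx
    by_cases htt : t = t'
    · subst htt
      exact ⟨d, hd', h1.2⟩
    · exfalso
      have h2 := g.mem_inf.2 ⟨hbt, h1.1⟩
      rw [hd t t' htt] at h2
      exact g.not_bot h2

end general

section

variable {A : Type u} [CompleteBooleanAlgebra A]

/-- The pair is generic. -/
def AvN (N : Set El.{u}) (X : ℕ → A) (g : Ult A) : Prop :=
  gen A N ∈ g ∧ ∀ E : Set (Pt A), In N E → MeasurableSet E → nl E → (g, vx X g) ∉ E

theorem evx1 (hMeas : MeasStatement.{u}) : ∀ᶠ N in club, ∀ X : ℕ → A, ∀ᶠ g in ae A,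
    rn N X ∈ g ↔ AvN N X g := by
  obtain ⟨-, M2, M3, -⟩ := hMeas A
  filter_upwards [all_club.{u}.2.1] with N hN X
  have hc := countable_in hN (Set (Pt A))
  let J := {E : {E : Set (Pt A) // In N E} // MeasurableSet E.1 ∧ nl E.1}
  have hJ : Countable J := inferInstanceAs (Countable {E : {E : Set (Pt A) // In N E} //
    MeasurableSet E.1 ∧ nl E.1})
  have h1 : rn N X = gen A N ⊓ ⨅ E : J, (bv fun g => (g, vx X g) ∈ E.1.1)ᶜ := by
    unfold rn
    congr 1
    refine le_antisymm (le_iInf fun E => ?_) (le_iInf fun E => le_iInf fun h1 => le_iInf fun h2 =>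
      le_iInf fun h3 => ?_)
    · exact iInf_le_of_le E.1.1 (iInf_le_of_le E.1.2 (iInf_le_of_le E.2.1
        (iInf_le_of_le E.2.2 le_rfl)))
    · exact iInf_le (fun E : J => (bv fun g => (g, vx X g) ∈ E.1.1)ᶜ) ⟨⟨E, h1⟩, h2, h3⟩
  have h2 : ∀ᶠ g in ae A, ∀ E : J, bv (fun g => (g, vx X g) ∈ E.1.1) ∈ g ↔
      (g, vx X g) ∈ E.1.1 := ae_all fun E => M2 _ (M3 X E.1.1 E.2.1)
  filter_upwards [h2, ae_iInf fun E : J => (bv fun g => (g, vx X g) ∈ E.1.1)ᶜ] with g hg hi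
  rw [h1, g.mem_inf, hi]
  refine and_congr_right fun _ => ?_
  constructor
  · intro h E h3 h4 h5 h6
    exact g.mem_compl.1 (h ⟨⟨E, h3⟩, h4, h5⟩) ((hg ⟨⟨E, h3⟩, h4, h5⟩).2 h6)
  · intro h E
    rw [g.mem_compl, hg E]
    exact h E.1.1 E.1.2 E.2.1 E.2.2

/-- Pointwise evaluation of the elements of `N`. -/
theorem ev_ae (hMeas : MeasStatement.{u}) (hRep : RepStatement.{u}) (X : ℕ → A) (r : RA A) :
    ∀ᶠ g in ae A, ev X r ∈ g ↔ (g, vx X g) ∈ rep r := by
  obtain ⟨-, M2, M3, -⟩ := hMeas A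
  exact M2 _ (M3 X (rep r) ((hRep A).1 r).1)

theorem rep_eq (hRep : RepStatement.{u}) {N : Set El.{u}} {X : ℕ → A} {g : Ult A}
    (hg : AvN N X g) {r : RA A} {E : Set (Pt A)} (hE : MeasurableSet E) (hr : mkR E = r)
    (h1 : In N (rep r \ E)) (h2 : In N (E \ rep r)) :
    (g, vx X g) ∈ rep r ↔ (g, vx X g) ∈ E := by
  obtain ⟨R1, R2, -⟩ := hRep A
  have h3 := R2 E hE
  rw [hr] at h3
  have h4 := hg.2 _ h1 ((R1 r).1.diff hE) h3.1
  have h5 := hg.2 _ h2 (hE.diff (R1 r).1) h3.2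
  constructor
  · intro h
    by_contra hc
    exact h4 ⟨h, hc⟩
  · intro h
    by_contra hc
    exact h5 ⟨h, hc⟩

theorem evx2 (hRapi : RapiStatement.{u}) (hRep : RepStatement.{u}) (hMeas : MeasStatement.{u}) :
    ∀ᶠ N in club, ∀ X : ℕ → A, ∀ᶠ g in ae A, rn N X ∈ g → EvG N X g := by
  obtain ⟨M1, M2, M3, M4, M5, M6, M7, M8, M9⟩ := hMeas A
  obtain ⟨R1, R2, R3⟩ := hRep A
  obtain ⟨P1, P2, P3, P4, P5, P6, P7, P8, P9, P10⟩ := hRapi A
  obtain ⟨-, cC, -, cK, -, cU, cB, cS, -⟩ := all_club.{u}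
  filter_upwards [evx1 (A := A) hMeas, cC, cK _ (⊤ : RA A), cK _ (⊥ : RA A),
    club_all fun σ => cK _ (cy σ : RA A),
    -- differences
    cB (RA A) (Set (Pt A)) _ (fun r E => rep r \ E), cB (RA A) (Set (Pt A)) _ (fun r E => E \ rep r),
    cK _ (Set.univ : Set (Pt A)), cK _ (∅ : Set (Pt A)), club_all fun σ => cK _ (cyl σ : Set (Pt A)),
    cU (RA A) _ (fun r => (rep r)ᶜ), cB (RA A) (RA A) _ (fun r s => rep r ∩ rep s),
    cB (RA A) (RA A) _ (fun r s => rep r ∪ rep s), cB (RA A) (RA A) _ (fun r s => rep r \ rep s),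
    cB (RA A) (RA A) _ (fun r s => r ⊓ s), cB (RA A) (RA A) _ (fun r s => r ⊔ s),
    cU (RA A) _ (fun r => rᶜ), cU A _ (fun a => (kap a : RA A)),
    cU A _ (fun a => {p : Pt A | a ∈ p.1}), cU (ℕ → RA A) _ (fun r => ⨅ n, r n),
    cU (ℕ → RA A) _ (fun r => ⨆ n, r n), cU (ℕ → RA A) _ (fun r => ⋂ n, rep (r n)),
    cU (ℕ → RA A) _ (fun r => ⋃ n, rep (r n)),
    club_all fun n => cU (ℕ → RA A) (RA A) (fun r => r n)]
    with N h1 hN kT kB kC dL dR kU kE kY cc ci cu cd fi fs fc fk fke fii fis fei fes fn X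
  have hcR := countable_in hN (RA A)
  have hev : ∀ᶠ g in ae A, ∀ r : {r : RA A // In N r}, ev X r.1 ∈ g ↔ (g, vx X g) ∈ rep r.1 :=
    ae_all fun r => ev_ae hMeas hRep X r.1
  filter_upwards [h1 X, hev] with g hg hev hrn
  have hA : AvN N X g := hg.1 hrn
  have hE : ∀ r : RA A, In N r → (ev X r ∈ g ↔ (g, vx X g) ∈ rep r) := fun r hr => hev ⟨r, hr⟩
  have hEq : ∀ (r : RA A) (E : Set (Pt A)), In N r → In N E → MeasurableSet E → mkR E = r →
      (ev X r ∈ g ↔ (g, vx X g) ∈ E) := fun r E hr hE' hM hm =>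
    (hE r hr).trans (rep_eq hRep hA hM hm (dL r E hr hE') (dR r E hr hE'))
  refine ⟨hA.1, hA.2, hE, ?_, ?_, ?_, ?_, ?_, ?_, ?_, ?_, ?_, ?_⟩
  · exact (hEq ⊤ Set.univ kT kU MeasurableSet.univ P5).2 trivial
  · exact fun h => ((hEq ⊥ ∅ kB kE MeasurableSet.empty P6).1 h)
  · intro r s hr hs
    rw [hEq (r ⊓ s) (rep r ∩ rep s) (fi r s hr hs) (ci r s hr hs) ((R1 r).1.inter (R1 s).1)
      (by rw [P2 _ _ (R1 r).1 (R1 s).1, (R1 r).2, (R1 s).2]), hE r hr, hE s hs]
    exact Iff.rfl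
  · intro r s hr hs
    have h2 : mkR (rep r ∪ rep s) = r ⊔ s := by
      have h3 := P4 (fun n => if n = 0 then rep r else rep s) (fun n => by
        split_ifs
        · exact (R1 r).1
        · exact (R1 s).1)
      have h4 : (⋃ n : ℕ, if n = 0 then rep r else rep s) = rep r ∪ rep s := by
        ext p
        simp only [Set.mem_iUnion, Set.mem_union]
        constructor
        · rintro ⟨n, hn⟩
          split_ifs at hn
          · exact Or.inl hn
          · exact Or.inr hn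
        · rintro (h | h)
          · exact ⟨0, by simpa using h⟩
          · exact ⟨1, by simpa using h⟩
      rw [h4] at h3
      rw [h3]
      refine le_antisymm (iSup_le fun n => ?_) (sup_le ?_ ?_)
      · split_ifs
        · rw [(R1 r).2]; exact le_sup_left
        · rw [(R1 s).2]; exact le_sup_right
      · refine le_iSup_of_le 0 ?_
        rw [if_pos rfl, (R1 r).2]
      · refine le_iSup_of_le 1 ?_
        rw [if_neg one_ne_zero, (R1 s).2]
    rw [hEq (r ⊔ s) (rep r ∪ rep s) (fs r s hr hs) (cu r s hr hs) ((R1 r).1.union (R1 s).1)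
      h2, hE r hr, hE s hs]
    exact Iff.rfl
  · intro r hr
    rw [hEq rᶜ (rep r)ᶜ (fc r hr) (cc r hr) (R1 r).1.compl
      (by rw [P3 _ (R1 r).1, (R1 r).2]), hE r hr]
    exact Iff.rfl
  · intro r s hr hs hrs h
    rw [hE r hr] at h
    rw [hE s hs]
    by_contra hc
    have h2 : nl (rep r \ rep s) := by
      rw [← P1 _ _ (R1 r).1 (R1 s).1, (R1 r).2, (R1 s).2]
      exact hrs
    exact hA.2 _ (cd r s hr hs) ((R1 r).1.diff (R1 s).1) h2 ⟨h, hc⟩
  · intro a ha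
    exact hEq (kap a) {p : Pt A | a ∈ p.1} (fk a ha) (fke a ha) (M4 a) rfl
  · intro r hr
    have h2 : mkR (⋂ n, rep (r n)) = ⨅ n, r n := by
      have h3 := P4 (fun n => (rep (r n))ᶜ) fun n => (R1 (r n)).1.compl
      rw [← Set.compl_iInter, P3 _ (MeasurableSet.iInter fun n => (R1 (r n)).1)] at h3
      rw [← compl_compl (mkR (⋂ n, rep (r n))), h3, compl_iSup]
      refine iInf_congr fun n => ?_
      rw [P3 _ (R1 (r n)).1, compl_compl, (R1 (r n)).2]
    rw [hEq (⨅ n, r n) (⋂ n, rep (r n)) (fii r hr) (fei r hr)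
      (MeasurableSet.iInter fun n => (R1 (r n)).1) h2, Set.mem_iInter]
    exact forall_congr' fun n => (hE (r n) (fn n r hr)).symm
  · intro r hr
    have h2 : mkR (⋃ n, rep (r n)) = ⨆ n, r n := by
      rw [P4 (fun n => rep (r n)) fun n => (R1 (r n)).1]
      exact iSup_congr fun n => (R1 (r n)).2
    rw [hEq (⨆ n, r n) (⋃ n, rep (r n)) (fis r hr) (fes r hr)
      (MeasurableSet.iUnion fun n => (R1 (r n)).1) h2, Set.mem_iUnion]
    exact exists_congr fun n => (hE (r n) (fn n r hr)).symm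
  · intro σ
    exact hEq (cy σ) (cyl σ) (kC σ) (kY σ) (M5 σ) rfl

/-- The sets used for the evaluation of the supremum of `φ`. -/
structure EvC {T : Type u} (φ : T → RA A) (n : ℕ) (b : A → A) (s : A → Finset T)
    (G : Set (Pt A)) : Prop where
  top : ⨆ j, b j = ⊤
  mG : MeasurableSet G
  small : ∀ᶠ g in ae A, ∀ j, b j ∈ g →
    cm.real (sec (rep (⨆ t, φ t) \ ⋃ t ∈ s j, rep (φ t)) g) < 1 / ((n : ℝ) + 1)
  le : ∀ᶠ g in ae A, ∀ j, b j ∈ g → cm (sec ((⋃ t ∈ s j, rep (φ t)) \ G) g) = 0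
  ge : ∀ᶠ g in ae A, ∀ j, b j ∈ g → cm (sec (G \ ⋃ t ∈ s j, rep (φ t)) g) = 0

theorem exists_evC (hRep : RepStatement.{u}) (hMix : MixStatement.{u}) {T : Type u}
    (φ : T → RA A) (n : ℕ) : ∃ (b : A → A) (s : A → Finset T) (G : Set (Pt A)),
    EvC φ n b s G := by
  classical
  obtain ⟨R1, R2, R3⟩ := hRep A
  have hq : (0 : ℝ) < 1 / ((n : ℝ) + 1) := by positivity
  have hD := R3 T φ (1 / ((n : ℝ) + 1)) hq
  let D : A → Prop := fun b => ∃ s : Finset T, ∀ᶠ g in ae A, b ∈ g →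
    cm.real (sec (rep (⨆ t, φ t) \ ⋃ t ∈ s, rep (φ t)) g) < 1 / ((n : ℝ) + 1)
  obtain ⟨b, hb1, hb2, hb3⟩ := H21.disj A A fun a => if D a then a else ⊥
  have htop : ⨆ a, b a = ⊤ := by
    rw [hb3]
    by_contra hne
    have h1 : (⨆ a : A, if D a then a else ⊥)ᶜ ≠ ⊥ := fun h => hne (compl_eq_bot.1 h)
    obtain ⟨c, hc1, hc2, s, hs⟩ := hD _ h1
    have hDc : D c := ⟨s, hs⟩
    have h2 : c ≤ ⨆ a : A, if D a then a else ⊥ := by
      refine le_iSup_of_le c ?_
      rw [if_pos hDc]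
    exact hc1 (le_bot_iff.1 (by
      calc c ≤ (⨆ a : A, if D a then a else ⊥) ⊓ (⨆ a : A, if D a then a else ⊥)ᶜ :=
            le_inf h2 hc2
        _ = ⊥ := inf_compl_eq_bot))
  let s : A → Finset T := fun a => if h : D a then h.choose else ∅
  have hsm : ∀ j, ∀ᶠ g in ae A, b j ∈ g →
      cm.real (sec (rep (⨆ t, φ t) \ ⋃ t ∈ s j, rep (φ t)) g) < 1 / ((n : ℝ) + 1) := by
    intro j
    by_cases h : D j
    · have h1 := h.choose_spec
      have h2 : s j = h.choose := dif_pos h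
      rw [← h2] at h1
      filter_upwards [h1] with g hg hbj
      refine hg (g.mono ?_ hbj)
      have h3 := hb1 j
      rwa [if_pos h] at h3
    · refine Filter.Eventually.of_forall fun g hbj => ?_
      have h3 := hb1 j
      rw [if_neg h] at h3
      exact absurd (g.mono h3 hbj) g.not_bot
  have hE : ∀ j, MeasurableSet (⋃ t ∈ s j, rep (φ t)) := fun j =>
    Finset.measurableSet_biUnion _ fun t _ => (R1 (φ t)).1
  obtain ⟨G, hG1, hG2, -⟩ := hMix A A b (fun j => ⋃ t ∈ s j, rep (φ t)) hb2 hE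
  exact ⟨b, s, G, htop, hG1, ae_mix b hb2 htop hsm,
    ae_mix b hb2 htop fun j => (hG2 j).mono fun g h hb => (h hb).1,
    ae_mix b hb2 htop fun j => (hG2 j).mono fun g h hb => (h hb).2⟩

theorem evx3 (hCm : IsFiniteMeasure cm) (hRapi : RapiStatement.{u}) (hRep : RepStatement.{u})
    (hMix : MixStatement.{u}) (hMeas : MeasStatement.{u}) (T : Type u) :
    ∀ᶠ N in club, ∀ X : ℕ → A, ∀ᶠ g in ae A, rn N X ∈ g →
      ∀ φ : T → RA A, In N φ → ev X (⨆ t, φ t) ∈ g → ∃ t, In N t ∧ ev X (φ t) ∈ g := by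
  classical
  obtain ⟨M1, M2, M3, M4, M5, M6, M7, M8, M9⟩ := hMeas A
  obtain ⟨R1, R2, R3⟩ := hRep A
  choose b s G hC using fun (φ : T → RA A) (n : ℕ) => exists_evC hRep hMix φ n
  obtain ⟨-, cC, -, cK, -, cU, cB, cS, -⟩ := all_club.{u}
  filter_upwards [evx1 (A := A) hMeas, evx2 (A := A) hRapi hRep hMeas, cC, H21.ng A A,
    cU (T → RA A) (RA A) fun φ => ⨆ t, φ t,
    cU (T → RA A) (Set (Pt A)) fun φ => rep (⨆ t, φ t) \ ⋃ n, G φ n,
    club_all fun n => cU (T → RA A) (A → A) fun φ => b φ n,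
    club_all fun n => cB (T → RA A) A (Set T) fun φ j => ((s φ n j : Finset T) : Set T), cS T,
    club_all fun n => cB (T → RA A) A (Set (Pt A)) fun φ j =>
      {p | b φ n j ∈ p.1} ∩ (G φ n \ ⋃ t ∈ s φ n j, rep (φ t)),
    cB (T → RA A) T (RA A) fun φ t => φ t]
    with N h1 h2 hN hng f1 f2 f3 f4 f5 f6 f7 X
  filter_upwards [h1 X, h2 X, hng] with g hg1 hg2 hng hrn φ hφ hsup
  have hA : AvN N X g := hg1.1 hrn
  have hE := hg2 hrn
  have h3 : (g, vx X g) ∈ rep (⨆ t, φ t) := (hE.rp _ (f1 φ hφ)).1 hsup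
  have hnull : nl (rep (⨆ t, φ t) \ ⋃ n, G φ n) := by
    have hall : ∀ᶠ g in ae A, ∀ n, ∃ j, b φ n j ∈ g := ae_all fun n => by
      filter_upwards [ae_iSup (b φ n)] with g hg
      refine hg.1 ?_
      rw [(hC φ n).top]
      exact g.mem_top
    filter_upwards [hall, ae_all fun n => (hC φ n).small, ae_all fun n => (hC φ n).le]
      with g hall hsm hle
    have hlt : ∀ n : ℕ, cm.real (sec (rep (⨆ t, φ t) \ ⋃ n, G φ n) g) ≤ 1 / ((n : ℝ) + 1) := by
      intro n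
      obtain ⟨j, hj⟩ := hall n
      have h4 : sec (rep (⨆ t, φ t) \ ⋃ n, G φ n) g ⊆
          sec (rep (⨆ t, φ t) \ ⋃ t ∈ s φ n j, rep (φ t)) g ∪
          sec ((⋃ t ∈ s φ n j, rep (φ t)) \ G φ n) g := by
        intro x hx
        by_cases hx' : (g, x) ∈ ⋃ t ∈ s φ n j, rep (φ t)
        · right
          exact ⟨hx', fun h => hx.2 (Set.mem_iUnion.2 ⟨n, h⟩)⟩
        · left
          exact ⟨hx.1, hx'⟩
      have h5 : cm.real (sec ((⋃ t ∈ s φ n j, rep (φ t)) \ G φ n) g) = 0 := by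
        rw [measureReal_def, hle n j hj]; rfl
      have h6 := (measureReal_mono (μ := cm) h4).trans (measureReal_union_le _ _)
      rw [h5, add_zero] at h6
      exact h6.trans (hsm n j hj).le
    have h7 : cm.real (sec (rep (⨆ t, φ t) \ ⋃ n, G φ n) g) = 0 := by
      refine le_antisymm ?_ measureReal_nonneg
      refine le_of_forall_pos_le_add fun ε hε => ?_
      obtain ⟨n, hn⟩ := exists_nat_one_div_lt hε
      rw [zero_add]
      exact (hlt n).trans hn.le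
    exact (measureReal_eq_zero_iff (measure_ne_top _ _)).1 h7
  have hmG : MeasurableSet (⋃ n, G φ n) := MeasurableSet.iUnion fun n => (hC φ n).mG
  have h4 : ∃ n, (g, vx X g) ∈ G φ n := by
    by_contra hcon
    exact hA.2 _ (f2 φ hφ) ((R1 _).1.diff hmG) hnull
      ⟨h3, fun h => hcon (Set.mem_iUnion.1 h)⟩
  obtain ⟨n, hn⟩ := h4
  obtain ⟨j, hjN, hj⟩ := hng hA.1 (b φ n) (f3 n φ hφ) (by
    rw [(hC φ n).top]; exact g.mem_top)
  have hmE : MeasurableSet (⋃ t ∈ s φ n j, rep (φ t)) :=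
    Finset.measurableSet_biUnion _ fun t _ => (R1 (φ t)).1
  have h5 : (g, vx X g) ∈ ⋃ t ∈ s φ n j, rep (φ t) := by
    by_contra hcon
    refine hA.2 _ (f6 n φ j hφ hjN) ((M4 (b φ n j)).inter ((hC φ n).mG.diff hmE)) ?_
      ⟨hj, hn, hcon⟩
    filter_upwards [(hC φ n).ge] with g hge
    by_cases hb : b φ n j ∈ g
    · exact measure_mono_null (fun x hx => hx.2) (hge j hb)
    · have h6 : sec ({p : Pt A | b φ n j ∈ p.1} ∩ (G φ n \ ⋃ t ∈ s φ n j, rep (φ t))) g = ∅ := by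
        ext x
        simp only [sec, Set.mem_ofPred_eq, Set.mem_empty_iff_false, iff_false]
        exact fun h => hb h.1
      rw [h6]
      exact measure_empty
  simp only [Set.mem_iUnion] at h5
  obtain ⟨t, ht, h6⟩ := h5
  have htN : In N t := f5 _ (f4 n φ j hφ hjN) (s φ n j).countable_toSet t ht
  exact ⟨t, htN, (hE.rp _ (f7 φ t hφ htN)).2 h6⟩

end

/-- **EVX**. -/
theorem evx (hCm : CmStatement) (hRapi : RapiStatement.{u}) (hRep : RepStatement.{u})
    (hMix : MixStatement.{u}) (hMeas : MeasStatement.{u}) : EvxStatement.{u} := by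
  intro A _
  have h1 : IsProbabilityMeasure cm := hCm.1
  exact ⟨evx1 hMeas, evx2 hRapi hRep hMeas, evx3 inferInstance hRapi hRep hMix hMeas⟩

end Pool.Agent.Lib.MP_a78e1f_lc.H9
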