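import Pool.Agent.Lib.MP_a78e1f_lc.T.Iface

/-!
Module SYSL (helper9): the system for Laver forcing.
-/

universe u v w

open Cardinal Filter MeasureTheory

namespace Pool.Agent.Lib.MP_a78e1f_lc.H9

open Pool.Agent.Lib.MP_100a6c_lc
open Pool.Agent.Lib.MP_c5d73d_lc.F (pr)
open Pool.Agent.Lib.MP_e6fef2_lc
open Pool.Agent.Lib.MP_6d445e_gt
open Pool.Agent.Lib.MP_a78e1f_lc

/-- RKA with a nonempty order. -/
def RkaN : Prop := ∀ (R : Type u) [CompleteBooleanAlgebra R],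
  ∃ (O : Type u) (_ : LinearOrder O) (_ : WellFoundedLT O) (_ : Nonempty O), ∀ p : List ℕ → R,
    ∃ Q : O → List ℕ → R,
      (∀ α t, Q α t = p t ⊔ ⨆ β, ⨆ _ : β < α, ⨅ m, ⨆ l, ⨆ _ : m ≤ l, Q β (t ++ [l])) ∧
      ∀ t, ⨅ m : ℕ, ⨆ l, ⨆ _ : m ≤ l, ⨆ α, Q α (t ++ [l]) ≤ ⨆ α, Q α t

section limsup

variable {R : Type u} [CompleteBooleanAlgebra R]

/-- The limit superior of a sequence. -/
def ls (x : ℕ → R) : R := ⨅ m : ℕ, ⨆ l, ⨆ _ : m ≤ l, x l

theorem ls_mono {x y : ℕ → R} (h : ∀ l, x l ≤ y l) : ls x ≤ ls y :=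
  iInf_mono fun _ => iSup_mono fun l => iSup_mono fun _ => h l

theorem ls_le (x : ℕ → R) (m : ℕ) : ls x ≤ ⨆ l, ⨆ _ : m ≤ l, x l := iInf_le _ m

theorem ls_le_of (x : ℕ → R) (c : R) (h : ∀ l, x l ≤ c) : ls x ≤ c :=
  (ls_le x 0).trans (iSup_le fun l => iSup_le fun _ => h l)

theorem ls_sup (x y : ℕ → R) : ls (fun l => x l ⊔ y l) = ls x ⊔ ls y := by
  apply le_antisymm
  · have h1 : ls x ⊔ ls y = ⨅ m : ℕ, ⨅ n : ℕ, (⨆ l, ⨆ _ : m ≤ l, x l) ⊔ ⨆ l, ⨆ _ : n ≤ l, y l := by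
      unfold ls
      rw [iInf_sup_eq]
      refine iInf_congr fun m => ?_
      rw [sup_iInf_eq]
    rw [h1]
    refine le_iInf fun m => le_iInf fun n => ?_
    refine (ls_le _ (max m n)).trans ?_
    refine iSup_le fun l => iSup_le fun hl => ?_
    refine sup_le_sup ?_ ?_
    · exact le_iSup_of_le l (le_iSup_of_le ((le_max_left _ _).trans hl) le_rfl)
    · exact le_iSup_of_le l (le_iSup_of_le ((le_max_right _ _).trans hl) le_rfl)
  · exact sup_le (ls_mono fun _ => le_sup_left) (ls_mono fun _ => le_sup_right)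

theorem ls_inf (x : ℕ → R) (r : R) : ls (fun l => x l ⊓ r) = ls x ⊓ r := by
  unfold ls
  rw [iInf_inf]
  refine iInf_congr fun m => ?_
  rw [iSup_inf_eq]
  refine iSup_congr fun l => ?_
  rw [iSup_inf_eq]

/-- The recursion of module RKA. -/
def QR {O : Type u} [LinearOrder O] (p : List ℕ → R) (Q : O → List ℕ → R) : Prop :=
  ∀ α t, Q α t = p t ⊔ ⨆ β, ⨆ _ : β < α, ls fun l => Q β (t ++ [l])

theorem QR.le {O : Type u} [LinearOrder O] {p : List ℕ → R} {Q : O → List ℕ → R} (h : QR p Q)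
    (α : O) (t : List ℕ) : p t ≤ Q α t := by
  rw [h]; exact le_sup_left

theorem QR.ind {O : Type u} [LinearOrder O] [WellFoundedLT O] {p : List ℕ → R}
    {Q : O → List ℕ → R} (h : QR p Q) (F : List ℕ → R) (h1 : ∀ t, p t ≤ F t)
    (h2 : ∀ t, ls (fun l => F (t ++ [l])) ≤ F t) (α : O) : ∀ t, Q α t ≤ F t := by
  induction α using WellFoundedLT.induction with
  | ind α ih =>
    intro t
    rw [h]
    refine sup_le (h1 t) (iSup_le fun β => iSup_le fun hβ => ?_)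
    exact (ls_mono fun l => ih β hβ (t ++ [l])).trans (h2 t)

theorem QR.add {O : Type u} [LinearOrder O] [WellFoundedLT O] {p p' p'' : List ℕ → R}
    {Q Q' Q'' : O → List ℕ → R} (h : QR p Q) (h' : QR p' Q') (h'' : QR p'' Q'')
    (hp : ∀ t, p'' t = p t ⊔ p' t) (α : O) : ∀ t, Q'' α t = Q α t ⊔ Q' α t := by
  induction α using WellFoundedLT.induction with
  | ind α ih =>
    intro t
    rw [h, h', h'', hp]
    have h1 : (⨆ β, ⨆ _ : β < α, ls fun l => Q'' β (t ++ [l])) =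
        (⨆ β, ⨆ _ : β < α, ls fun l => Q β (t ++ [l])) ⊔
          ⨆ β, ⨆ _ : β < α, ls fun l => Q' β (t ++ [l]) := by
      rw [← iSup_sup_eq]
      refine iSup_congr fun β => ?_
      rw [← iSup_sup_eq]
      refine iSup_congr fun hβ => ?_
      rw [← ls_sup]
      congr 1
      funext l
      exact ih β hβ (t ++ [l])
    rw [h1, sup_sup_sup_comm]

theorem QR.inf {O : Type u} [LinearOrder O] [WellFoundedLT O] {p p' : List ℕ → R}
    {Q Q' : O → List ℕ → R} (h : QR p Q) (h' : QR p' Q') (r : R)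
    (hp : ∀ t, p' t = p t ⊓ r) (α : O) : ∀ t, Q' α t = Q α t ⊓ r := by
  induction α using WellFoundedLT.induction with
  | ind α ih =>
    intro t
    rw [h, h', hp, inf_sup_right]
    congr 1
    rw [iSup_inf_eq]
    refine iSup_congr fun β => ?_
    rw [iSup_inf_eq]
    refine iSup_congr fun hβ => ?_
    rw [← ls_inf]
    congr 1
    funext l
    exact ih β hβ (t ++ [l])

theorem QR.bot {O : Type u} [LinearOrder O] [WellFoundedLT O] {p : List ℕ → R}
    {Q : O → List ℕ → R} (h : QR p Q) (P : List ℕ → Prop) (hP : ∀ t l, P t → P (t ++ [l]))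
    (hp : ∀ t, P t → p t ≤ ⊥) (α : O) : ∀ t, P t → Q α t = ⊥ := by
  induction α using WellFoundedLT.induction with
  | ind α ih =>
    intro t ht
    rw [h]
    refine le_bot_iff.1 (sup_le (hp t ht) (iSup_le fun β => iSup_le fun hβ => ?_))
    exact ls_le_of _ _ fun l => (ih β hβ (t ++ [l]) (hP t l ht)).le

theorem sup3 {ι κ : Type u} (P : ι → κ → Prop) (f g h : ι → κ → R)
    (H : ∀ a b, f a b = g a b ⊔ h a b) :
    (⨆ a, ⨆ b, ⨆ _ : P a b, f a b) = (⨆ a, ⨆ b, ⨆ _ : P a b, g a b) ⊔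
      ⨆ a, ⨆ b, ⨆ _ : P a b, h a b := by
  simp only [H, iSup_sup_eq]

theorem inf3 {ι κ : Type u} (P : ι → κ → Prop) (f g : ι → κ → R) (r : R)
    (H : ∀ a b, f a b = g a b ⊓ r) :
    (⨆ a, ⨆ b, ⨆ _ : P a b, f a b) = (⨆ a, ⨆ b, ⨆ _ : P a b, g a b) ⊓ r := by
  simp only [H, iSup_inf_eq]

theorem eq_bot_of_inf_self {x : R} (h : x ⊓ x = ⊥) : x = ⊥ := by
  rwa [inf_idem] at h

end limsup

theorem AddM.mono {A C : Type u} [CompleteBooleanAlgebra A] [CompleteBooleanAlgebra C]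
    {f : A → C} {π : C → A} (h : AddM f π) {c d : C} (hcd : c ≤ d) : π c ≤ π d := by
  have h1 := h.sup c d
  rw [sup_eq_right.2 hcd] at h1
  rw [h1]
  exact le_sup_left

theorem le_of_compl_inf {R : Type u} [CompleteBooleanAlgebra R] {x y : R} (h : yᶜ ⊓ x = ⊥) :
    x ≤ y := by
  rw [← disjoint_iff, ← le_compl_iff_disjoint_left, compl_compl] at h
  exact h

theorem compl_inf_of_le {R : Type u} [CompleteBooleanAlgebra R] {x y : R} (h : x ≤ y) :
    yᶜ ⊓ x = ⊥ := by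
  rw [← disjoint_iff, ← le_compl_iff_disjoint_left, compl_compl]
  exact h

theorem not_inc_append {t : List ℕ} (h : ¬ Inc t) (l : ℕ) : ¬ Inc (t ++ [l]) := fun h' =>
  h (List.pairwise_append.1 h').1

/-- **SYSL**, for RKA with a nonempty order. -/
theorem sysl' (hRka : RkaN.{u}) (hRkb : RkbStatement.{u}) (hLpl : LplStatement.{u})
    (hPir : PirStatement.{u, 0}) (hRegx : RegxStatement.{u}) (hKap : KapStatement.{u})
    (hFam : FamStatement) (hGnd : GndStatement.{u}) : SyslStatement.{u} := by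
  intro A _
  obtain ⟨O, hO1, hO2, hO3, hQ⟩ := hRka (RA A)
  have hne : Nonempty (TX IsLav A) := (hGnd IsLav hFam.2.1 A).1
  have hCE : IsCE (tE IsLav A) := (all_tw1 A (TX IsLav A) (TQ IsLav A)).1
  obtain ⟨L1, L2, L3, L4, L5, L6, L7⟩ := hLpl A
  have hP := fun t => hPir A (tC IsLav A) (tE IsLav A) hCE (lpL t) (L1 t)
  have hkap := (hKap A).1
  have hkap' := (hKap (tC IsLav A)).1
  have hkA := all_alg A (RA A) kap hkap
  have hAdd : ∀ t, AddM (rmap (tE IsLav A)) (piR (tE IsLav A) (lpL t)) := fun t => (hP t).2.1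
  choose Qf hQ1 hQ2 using hQ
  have hQ1' : ∀ p, QR p (Qf p) := hQ1
  -- the values at the nodes
  let pe : Set (tC IsLav A) → RA (tC IsLav A) → List ℕ → RA A := fun D e t =>
    ⨆ a : A, ⨆ τ : TX IsLav A, ⨆ _ : ∃ d ∈ D, tE IsLav A a ⊓ tG τ ≤ d,
      piR (tE IsLav A) (lpL t) (e ⊓ kap (tE IsLav A a ⊓ tG τ))
  let Λ : Set (tC IsLav A) → List ℕ × O → RA (tC IsLav A) → RA A := fun D θ e =>
    Qf (pe D e) θ.2 θ.1
  have hle_pe : ∀ D e t a (τ : TX IsLav A), (∃ d ∈ D, tE IsLav A a ⊓ tG τ ≤ d) →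
      piR (tE IsLav A) (lpL t) (e ⊓ kap (tE IsLav A a ⊓ tG τ)) ≤ pe D e t := fun D e t a τ h =>
    le_iSup_of_le a (le_iSup_of_le τ (le_iSup_of_le h le_rfl))
  have hpe_le : ∀ D e α t, pe D e t ≤ Qf (pe D e) α t := fun D e α t => (hQ1' (pe D e)).le α t
  -- the claim
  have claim : ∀ D : Set (tC IsLav A), sSup D = ⊤ → ∀ e t,
      piR (tE IsLav A) (lpL t) e ≤ ⨆ α : O, Qf (pe D e) α t := by
    intro D hD e t
    have h1 := hRkb A D hD e (fun t => (⨆ α : O, Qf (pe D e) α t)ᶜ) ?_ ?_ t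
    · exact le_of_compl_inf h1
    · intro t
      have h2 := compl_le_compl (hQ2 (pe D e) t)
      refine h2.trans (le_of_eq ?_)
      simp only [compl_iInf, compl_iSup]
    · intro t a τ h
      obtain ⟨α⟩ := hO3
      have h2 : piR (tE IsLav A) (lpL t) (e ⊓ kap (tE IsLav A a ⊓ tG τ)) ≤
          ⨆ α : O, Qf (pe D e) α t :=
        (hle_pe D e t a τ h).trans ((hpe_le D e α t).trans (le_iSup (fun α => Qf (pe D e) α t) α))
      exact compl_inf_of_le h2
  refine ⟨List ℕ × O, Prod.fst, fun θ' θ => θ'.2 < θ.2, Λ, ?_⟩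
  constructor
  · exact InvImage.wf Prod.snd (IsWellFounded.wf : WellFounded ((· < ·) : O → O → Prop))
  · -- add
    intro D _ θ
    constructor
    · intro c c'
      have hp : ∀ t, pe D (c ⊔ c') t = pe D c t ⊔ pe D c' t := fun t =>
        sup3 (fun (a : A) (τ : TX IsLav A) => ∃ d ∈ D, tE IsLav A a ⊓ tG τ ≤ d)
          (fun a τ => piR (tE IsLav A) (lpL t) ((c ⊔ c') ⊓ kap (tE IsLav A a ⊓ tG τ)))
          (fun a τ => piR (tE IsLav A) (lpL t) (c ⊓ kap (tE IsLav A a ⊓ tG τ)))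
          (fun a τ => piR (tE IsLav A) (lpL t) (c' ⊓ kap (tE IsLav A a ⊓ tG τ)))
          fun a τ => (congrArg _ (inf_sup_right _ _ _)).trans ((hAdd t).sup _ _)
      exact QR.add (hQ1' (pe D c)) (hQ1' (pe D c')) (hQ1' (pe D (c ⊔ c'))) hp θ.2 θ.1
    · intro c r
      have hp : ∀ t, pe D (c ⊓ rmap (tE IsLav A) r) t = pe D c t ⊓ r := fun t =>
        inf3 (fun (a : A) (τ : TX IsLav A) => ∃ d ∈ D, tE IsLav A a ⊓ tG τ ≤ d)
          (fun a τ => piR (tE IsLav A) (lpL t)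
            (c ⊓ rmap (tE IsLav A) r ⊓ kap (tE IsLav A a ⊓ tG τ)))
          (fun a τ => piR (tE IsLav A) (lpL t) (c ⊓ kap (tE IsLav A a ⊓ tG τ))) r
          fun a τ => (congrArg _ (inf_right_comm _ _ _)).trans ((hAdd t).lin _ _)
      exact QR.inf (hQ1' (pe D c)) (hQ1' (pe D (c ⊓ rmap (tE IsLav A) r))) r hp θ.2 θ.1
  · -- inc
    intro D _ θ e hθ
    have hz : ∀ t, ¬ Inc t → ∀ x, piR (tE IsLav A) (lpL t) x = ⊥ := by
      intro t ht x
      have h1 := ((hP t).1 x (piR (tE IsLav A) (lpL t) x)).2 fun q _ => L6 t _ ht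
      exact eq_bot_of_inf_self h1
    refine (hQ1' (pe D e)).bot (fun t => ¬ Inc t) (fun t l h => not_inc_append h l) ?_ θ.2 θ.1 hθ
    intro t ht
    refine iSup_le fun a => iSup_le fun τ => iSup_le fun _ => ?_
    rw [hz t ht]
  · -- ini
    intro D hD e
    have hadd : AddM (tE IsLav A) (prj (tE IsLav A)) :=
      (W.All.itp A (tC IsLav A) (tE IsLav A) hCE).2.2.1
    have hPp := hPir A (tC IsLav A) (tE IsLav A) hCE (prj (tE IsLav A)) hadd
    rw [← hPp.2.2.2.2.1 e]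
    refine (hPp.2.2.2.2.2.2.1 (List ℕ) lpL L1 (fun c => (L2 c).le) e).trans ?_
    refine iSup_le fun t => (claim D hD e t).trans (iSup_le fun α => ?_)
    exact le_iSup (fun θ : List ℕ × O => Λ D θ e) (t, α)
  · -- nod
    intro D _ θ e a τ he
    have hk : ∀ b c : A, b ≤ c → (kap b : RA A) ≤ kap c := fun b c h => (hkA.2.2.2.2.1 b c).2 h
    refine (hQ1' (pe D e)).ind (fun t => kap (a ⊓ τ.1 t)) ?_ ?_ θ.2 θ.1
    · intro t
      refine iSup_le fun a' => iSup_le fun τ' => iSup_le fun _ => ?_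
      refine (AddM.mono (hAdd t) (inf_le_left.trans he)).trans ?_
      rw [(hP t).2.2.1]
      refine hk _ _ ?_
      have h3 : lpL t (tE IsLav A a ⊓ tG τ) = lpL t (tG τ) ⊓ a :=
        (congrArg _ (inf_comm _ _)).trans ((L1 t).lin _ _)
      rw [h3, inf_comm]
      exact inf_le_inf_left _ (L5 t τ)
    · intro t
      refine ls_le_of _ _ fun l => hk _ _ (inf_le_inf_left _ ?_)
      refine le_of_ae ?_
      filter_upwards [τ.2] with g hg h
      exact hFam.2.1.pre _ hg t (t ++ [l]) (List.prefix_append _ _) h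
  · -- nxt
    intro D D' hD hD' θ e E hE heE m
    show Qf (pe D e) θ.2 θ.1 ≤ _
    rw [hQ1' (pe D e)]
    refine sup_le ?_ ?_
    · refine le_sup_of_le_right ?_
      refine iSup_le fun a => iSup_le fun τ => iSup_le fun hd => ?_
      have h1 : e ⊓ kap (tE IsLav A a ⊓ tG τ) ⊓ mkR E = ⊥ := by
        refine le_bot_iff.1 (le_trans ?_ heE.le)
        exact inf_le_inf_right _ inf_le_left
      refine (hRegx A (tC IsLav A) (tE IsLav A) hCE (lpL θ.1) (L1 θ.1) _ E hE h1).trans ?_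
      refine iSup_le fun ε => iSup_le fun hε => ?_
      refine ((hP θ.1).2.2.2.2.2.2.1 {l : ℕ // m ≤ l} (fun l => lpL (θ.1 ++ [l.1]))
        (fun l => L1 _) (fun c => ?_) _).trans ?_
      · rw [L3 θ.1 c]
        refine (iInf_le _ m).trans (iSup_le fun k => iSup_le fun hk => ?_)
        exact le_iSup (fun l : {l : ℕ // m ≤ l} => lpL (θ.1 ++ [l.1]) c) ⟨k, hk⟩
      · refine iSup_le fun l => (claim D' hD' _ _).trans (iSup_le fun α => ?_)
        refine le_iSup_of_le (θ.1 ++ [l.1], α) (le_iSup_of_le ⟨l.1, l.2, rfl⟩ ?_)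
        exact le_iSup_of_le a (le_iSup_of_le τ (le_iSup_of_le hd
          (le_iSup_of_le ε (le_iSup_of_le hε le_rfl))))
    · refine le_sup_of_le_left ?_
      refine iSup_le fun β => iSup_le fun hβ => (ls_le _ m).trans ?_
      refine iSup_le fun l => iSup_le fun hl => ?_
      exact le_iSup_of_le (θ.1 ++ [l], β) (le_iSup_of_le ⟨hβ, l, hl, rfl⟩ le_rfl)

/-- **SYSL**. -/
theorem sysl (hRka : RkaStatement.{u}) (hRkb : RkbStatement.{u}) (hLpl : LplStatement.{u})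
    (hPir : PirStatement.{u, 0}) (hRegx : RegxStatement.{u}) (hKap : KapStatement.{u})
    (hFam : FamStatement) (hGnd : GndStatement.{u}) : SyslStatement.{u} :=
  sysl' hRka hRkb hLpl hPir hRegx hKap hFam hGnd

end Pool.Agent.Lib.MP_a78e1f_lc.H9
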