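import Pool.Agent.Lib.MP_a78e1f_lc.K.Iface
import Pool.Agent.Lib.MP_6d445e_gt.H63.Meas

/-!
Module SAB (helper9): capturing the partial homeomorphism, decoding.
-/

universe u v w

open Cardinal Filter MeasureTheory

namespace Pool.Agent.Lib.MP_a78e1f_lc.H9

open Pool.Agent.Lib.MP_100a6c_lc
open Pool.Agent.Lib.MP_e6fef2_lc
open Pool.Agent.Lib.MP_6d445e_gt
open Pool.Agent.Lib.MP_a78e1f_lc
open Pool.Agent.Lib.MP_6d445e_gt.H63 (ms_all ms_ex ms_imp ms_and ms_not ms_const meas_sInf)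
open Pool.Agent.Lib.MP_a78e1f_lc.H35 (Agr ext0 enc enc_injective codeSet approx bnd mlev lev
  DenseBd Captured Mod)

/-! ## Lists of digits -/

theorem res_congr {x y : Cs} {n : ℕ} (h : Agr n x y) : res x n = res y n :=
  List.map_congr_left fun i hi => h i (List.mem_range.1 hi)

theorem res_getD (v : Cs) {n i : ℕ} (hi : i < n) : (res v n).getD i false = v i := by
  simp [res, hi]

theorem res_prefix (x : Cs) {m n : ℕ} (h : m ≤ n) : res x m <+: res x n := by
  obtain ⟨k, rfl⟩ := Nat.exists_eq_add_of_le h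
  unfold res
  rw [List.range_add, List.map_append]
  exact List.prefix_append _ _

theorem cpb_res (x : Cs) (m n : ℕ) : Cpb (res x m) (res x n) := by
  rcases le_total m n with h | h
  · exact Or.inl (res_prefix x h)
  · exact Or.inr (res_prefix x h)

theorem length_res (x : Cs) (n : ℕ) : (res x n).length = n := by simp [res]

theorem getD_prefix {τ τ' : List Bool} (h : τ <+: τ') {i : ℕ} (hi : i < τ.length) :
    τ.getD i false = τ'.getD i false := by
  obtain ⟨s, rfl⟩ := h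
  rw [List.getD_append _ _ _ _ hi]

theorem getD_cpb {τ τ' : List Bool} (h : Cpb τ τ') {i : ℕ} (hi : i < τ.length)
    (hi' : i < τ'.length) : τ.getD i false = τ'.getD i false := by
  rcases h with h | h
  · exact getD_prefix h hi
  · exact (getD_prefix h hi').symm

theorem lt_length_of_getD {τ : List Bool} {i : ℕ} (h : τ.getD i false = true) : i < τ.length := by
  by_contra hcon
  push Not at hcon
  rw [List.getD_eq_default _ _ hcon] at h
  exact Bool.false_ne_true h

/-! ## Measurability -/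

section

variable {B : Type u} [CompleteBooleanAlgebra B]

theorem ms_fun {ι : Type} [Countable ι] {φ : Ult B → ι → Bool}
    (h : ∀ i, MeasurableSet {g | φ g i = true}) (c : ι → Bool) :
    MeasurableSet {g | φ g = c} := by
  have h1 : {g | φ g = c} = {g | ∀ i, φ g i = c i} := by
    ext g
    exact funext_iff
  rw [h1]
  refine ms_all fun i => ?_
  cases hc : c i
  · have h2 : {g | φ g i = false} = {g | ¬ φ g i = true} := by
      ext g
      simp
    rw [h2]
    exact ms_not (h i)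
  · exact h i

theorem meas_enc {α : Type} [Countable α] {φ : Ult B → α}
    (h : ∀ a, MeasurableSet {g | φ g = a}) : Measurable fun g => enc α (φ g) := by
  refine measurable_to_countable' fun k => ?_
  have h1 : (fun g => enc α (φ g)) ⁻¹' {k} = {g | ∃ a, enc α a = k ∧ φ g = a} := by
    ext g
    constructor
    · intro hg
      exact ⟨φ g, hg, rfl⟩
    · rintro ⟨a, h2, h3⟩
      show enc α (φ g) = k
      rw [h3, h2]
  rw [h1]
  exact ms_ex fun a => ms_and (ms_const _) (h a)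

/-- Capturing a measurable function. -/
theorem capture (hB : SkP B) {φ : Ult B → ℕ → ℕ} (hφ : ∀ n, Measurable fun g => φ g n) {b : B}
    (hb : b ≠ ⊥) : ∃ b', b' ≠ ⊥ ∧ b' ≤ b ∧ ∃ S : ℕ → Finset ℕ, (∀ p, (S p).card ≤ wS p) ∧
      ∀ᶠ h in ae B, b' ∈ h → ∀ p, φ h p ∈ S p := by
  obtain ⟨x, hx, hfv⟩ := H63.exists_fn hφ
  obtain ⟨b', h1, h2, S, hS, h3⟩ := hB x hx b hb
  refine ⟨b', h1, h2, S, hS, ?_⟩
  filter_upwards [h3, hfv] with h h4 h5 hh p
  rw [← h5]
  exact h4 hh p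

variable (F G : List Bool → List Bool → B)

/-- The point `x` is in the `n`-th open set, with a witness of length at most `N`. -/
def WW (h : Ult B) (n N : ℕ) (x : Cs) : Prop :=
  ∃ k ≤ N, ∃ τ τ', F (res x k) τ ∈ h ∧ n ≤ τ.length ∧ τ' <+: τ ∧ G τ' (res x n) ∈ h

variable {F G}

theorem WW.congr {h : Ult B} {n N : ℕ} {x y : Cs} (hxy : Agr (max n N) x y)
    (hx : WW F G h n N x) : WW F G h n N y := by
  obtain ⟨k, hk, τ, τ', h1, h2, h3, h4⟩ := hx
  refine ⟨k, hk, τ, τ', ?_, h2, h3, ?_⟩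
  · rwa [← res_congr (hxy.mono (hk.trans (le_max_right _ _)))]
  · rwa [← res_congr (hxy.mono (le_max_left _ _))]

theorem WW.mono {h : Ult B} {n N N' : ℕ} {x : Cs} (hN : N ≤ N') (hx : WW F G h n N x) :
    WW F G h n N' x := by
  obtain ⟨k, hk, hx⟩ := hx
  exact ⟨k, hk.trans hN, hx⟩

theorem mem_gop {h : Ult B} {n : ℕ} {x : Cs} :
    x ∈ Gop (fun σ τ => F σ τ ∈ h) (fun τ σ => G τ σ ∈ h) n ↔ ∃ N, WW F G h n N x := by
  constructor
  · rintro ⟨k, τ, τ', h1⟩
    exact ⟨k, k, le_rfl, τ, τ', h1⟩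
  · rintro ⟨N, k, -, τ, τ', h1⟩
    exact ⟨k, τ, τ', h1⟩

theorem ms_WW (n N : ℕ) (x : Cs) : MeasurableSet {h : Ult B | WW F G h n N x} :=
  ms_ex fun _ => ms_and (ms_const _) (ms_ex fun _ => ms_ex fun _ =>
    ms_and (measurable_mem B _) (ms_and (ms_const _) (ms_and (ms_const _) (measurable_mem B _))))

/-- Compactness. -/
theorem sub_iff {h : Ult B} {n m : ℕ} {t : Cs} :
    (∀ x, Agr m x t → x ∈ Gop (fun σ τ => F σ τ ∈ h) (fun τ σ => G τ σ ∈ h) n) ↔
    ∃ N, max m n ≤ N ∧ ∀ s : Fin N → Bool, Agr m (ext0 s) t → WW F G h n N (ext0 s) := by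
  constructor
  · intro hsub
    by_contra hcon
    push Not at hcon
    let K : ℕ → Set Cs := fun N => {x | Agr m x t} ∩ {x | WW F G h n (N + max m n) x}ᶜ
    have hop : ∀ N, IsOpen {x : Cs | WW F G h n N x} := by
      intro N
      rw [H35.isOpen_iff_agr]
      intro x hx
      exact ⟨max n N, fun y hy => WW.congr hy.symm hx⟩
    have hK : ∀ N, IsClosed (K N) := fun N =>
      (H35.isClopen_agr m continuous_id continuous_const).isClosed.inter
        (hop _).isClosed_compl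
    have hne : ∀ N, (K N).Nonempty := by
      intro N
      obtain ⟨s, hs1, hs2⟩ := hcon (N + max m n) (Nat.le_add_left _ _)
      exact ⟨ext0 s, hs1, hs2⟩
    have hdec : ∀ N, K (N + 1) ⊆ K N := fun N x hx =>
      ⟨hx.1, fun h' => hx.2 (WW.mono (by omega) h')⟩
    obtain ⟨x, hx⟩ := IsCompact.nonempty_iInter_of_sequence_nonempty_isCompact_isClosed K hdec
      hne (hK 0).isCompact hK
    have hx' := Set.mem_iInter.1 hx
    obtain ⟨N, hN⟩ := mem_gop.1 (hsub x (hx' 0).1)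
    exact (hx' N).2 (WW.mono (Nat.le_add_right _ _) hN)
  · rintro ⟨N, hN, hs⟩ x hx
    have h1 := H35.agr_ext0_res N x
    have h2 := hs (H35.res N x) ((h1.mono ((le_max_left _ _).trans hN)).trans hx)
    exact mem_gop.2 ⟨N, WW.congr (h1.mono (max_le ((le_max_right _ _).trans hN) le_rfl)) h2⟩

theorem ms_sub (n m : ℕ) (t : Cs) : MeasurableSet {h : Ult B |
    ∀ x, Agr m x t → x ∈ Gop (fun σ τ => F σ τ ∈ h) (fun τ σ => G τ σ ∈ h) n} := by
  simp only [sub_iff]
  exact ms_ex fun N => ms_and (ms_const _) (ms_all fun s => ms_imp (ms_const _) (ms_WW _ _ _))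

open Classical in
/-- The map given by the approximations `F` on the perfect set given by `θ`. -/
noncomputable def gh (F : List Bool → List Bool → B) (θ : Cs → Cs) (h : Ult B) (x : Cs) : Cs :=
  fun i => decide (∃ k τ, F (res (θ x) k) τ ∈ h ∧ τ.getD i false = true)

theorem gh_eq {h : Ult B} {θ : Cs → Cs}
    (hR : RelP (fun σ τ => F σ τ ∈ h) fun τ σ => G τ σ ∈ h) {x v : Cs}
    (hv : Lim (fun σ τ => F σ τ ∈ h) (θ x) v) : gh F θ h x = v := by
  classical
  funext i
  obtain ⟨k, hk⟩ := hv (i + 1)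
  have h1 : (∃ k τ, F (res (θ x) k) τ ∈ h ∧ τ.getD i false = true) ↔ v i = true := by
    constructor
    · rintro ⟨k', τ, h2, h3⟩
      have h4 := hR.cf _ _ _ _ (cpb_res (θ x) k' k) h2 hk
      have h5 := getD_cpb h4 (lt_length_of_getD h3) (by rw [length_res]; exact Nat.lt_succ_self i)
      rw [h3, res_getD v (Nat.lt_succ_self i)] at h5
      exact h5.symm
    · intro h2
      refine ⟨k, res v (i + 1), hk, ?_⟩
      rw [res_getD v (Nat.lt_succ_self i)]
      exact h2
  unfold gh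
  rw [Bool.eq_iff_iff, decide_eq_true_iff]
  exact h1

theorem ms_gh (θ : Cs → Cs) (x : Cs) (i : ℕ) :
    MeasurableSet {h : Ult B | gh F θ h x i = true} := by
  classical
  have h1 : {h : Ult B | gh F θ h x i = true} =
      {h | ∃ k τ, F (res (θ x) k) τ ∈ h ∧ τ.getD i false = true} := by
    ext h
    exact decide_eq_true_iff
  rw [h1]
  exact ms_ex fun _ => ms_ex fun _ => ms_and (measurable_mem B _) (ms_const _)

theorem ms_gh_agr (θ : Cs → Cs) (x y : Cs) (n : ℕ) :
    MeasurableSet {h : Ult B | Agr n (gh F θ h x) (gh F θ h y)} := by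
  have h1 : {h : Ult B | Agr n (gh F θ h x) (gh F θ h y)} =
      {h | ∀ i, i < n → ((gh F θ h x i = true → gh F θ h y i = true) ∧
        (gh F θ h y i = true → gh F θ h x i = true))} := by
    ext h
    refine forall_congr' fun i => forall_congr' fun _ => ?_
    rw [Bool.eq_iff_iff]
    exact iff_iff_implies_and_implies
  rw [h1]
  exact ms_all fun i => ms_imp (ms_const _) (ms_and (ms_imp (ms_gh _ _ _) (ms_gh _ _ _))
    (ms_imp (ms_gh _ _ _) (ms_gh _ _ _)))

end

/-- The condition on the common modulus, for points which are eventually zero. -/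
def Mdl (g : Cs → Cs) (n m : ℕ) : Prop := ∀ p q : Σ l : ℕ, Fin l → Bool,
  (Agr m (ext0 p.2) (ext0 q.2) → Agr n (g (ext0 p.2)) (g (ext0 q.2))) ∧
  (Agr m (g (ext0 p.2)) (g (ext0 q.2)) → Agr n (ext0 p.2) (ext0 q.2))

theorem exists_mdl {g : Cs → Cs} (hg : Continuous g) (hinj : Function.Injective g) (n : ℕ) :
    ∃ m, Mdl g n m := by
  obtain ⟨m1, hm1⟩ := H35.exists_modulus hg n
  obtain ⟨m2, hm2⟩ := H35.exists_inv_modulus hg hinj n
  exact ⟨max m1 m2, fun p q => ⟨fun h => hm1 _ _ (h.mono (le_max_left _ _)),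
    fun h => hm2 _ _ (h.mono (le_max_right _ _))⟩⟩

theorem mod_of_mdl {g : Cs → Cs} (hg : Continuous g) {m b : ℕ → ℕ} (hm : ∀ n, Mdl g n (m n))
    (hb : ∀ n, m n ≤ b n) : Mod b g := by
  constructor
  · intro n x y hxy
    obtain ⟨m1, hm1⟩ := H35.exists_modulus hg n
    have hx := H35.agr_ext0_res (max m1 (m n)) x
    have hy := H35.agr_ext0_res (max m1 (m n)) y
    have h1 := (hm n ⟨_, H35.res (max m1 (m n)) x⟩ ⟨_, H35.res (max m1 (m n)) y⟩).1
      (((hx.mono (le_max_right _ _)).trans (hxy.mono (hb n))).trans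
        (hy.mono (le_max_right _ _)).symm)
    exact ((hm1 _ _ (hx.mono (le_max_left _ _))).symm.trans h1).trans
      (hm1 _ _ (hy.mono (le_max_left _ _)))
  · intro n x y hxy
    obtain ⟨m1, hm1⟩ := H35.exists_modulus hg (m n)
    have hx := H35.agr_ext0_res (max m1 n) x
    have hy := H35.agr_ext0_res (max m1 n) y
    have h1 := (hm n ⟨_, H35.res (max m1 n) x⟩ ⟨_, H35.res (max m1 n) y⟩).2
      (((hm1 _ _ (hx.mono (le_max_left _ _))).trans (hxy.mono (hb n))).trans
        (hm1 _ _ (hy.mono (le_max_left _ _))).symm)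
    exact ((hx.mono (le_max_right _ _)).symm.trans h1).trans (hy.mono (le_max_right _ _))

/-- **SAB**. -/
theorem sab (hSaa : SaaStatement) (hSch : SchStatement) : SabStatement.{u} := by
  intro B _ hB Γ hΓ F G hFG
  classical
  -- (1) the bound of density
  let D : Ult B → ℕ → ℕ → Prop := fun h n m => ∀ s : Fin n → Bool, ∃ t : Fin m → Bool,
    Agr n (ext0 t) (ext0 s) ∧
      ∀ x, Agr m x (ext0 t) → x ∈ Gop (fun σ τ => F σ τ ∈ h) (fun τ σ => G τ σ ∈ h) n
  have hψ : ∀ n, Measurable fun h : Ult B => sInf {m | D h n m} := fun n =>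
    meas_sInf fun m => ms_all fun s => ms_ex fun t => ms_and (ms_const _) (ms_sub n m _)
  obtain ⟨b1, hb1, hb1', S1, hS1, hc1⟩ := capture hB (φ := fun h n => sInf {m | D h n m}) hψ hΓ
  have hD : ∀ᶠ h in ae B, b1 ∈ h →
      DenseBd (bnd S1) (Gop (fun σ τ => F σ τ ∈ h) (fun τ σ => G τ σ ∈ h)) := by
    filter_upwards [hc1, hFG] with h h1 h2 hh
    obtain ⟨-, ⟨ψ, hψ⟩, -⟩ := hSaa _ _ (h2 (h.mono hb1' hh))
    have h3 : ∀ n, D h n (max n (ψ n)) := by
      intro n s
      obtain ⟨t, ht1, ht2⟩ := hψ n (ext0 s)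
      have h4 := H35.agr_ext0_res (max n (ψ n)) t
      exact ⟨H35.res (max n (ψ n)) t, (h4.mono (le_max_left _ _)).trans ht1,
        fun x hx => ht2 x ((hx.trans h4).mono (le_max_right _ _))⟩
    intro n s
    have h4 : D h n (sInf {m | D h n m}) := Nat.sInf_mem (s := {m | D h n m}) ⟨_, h3 n⟩
    obtain ⟨t, ht1, ht2⟩ := h4 (H35.res n s)
    exact ⟨ext0 t, ht1.trans (H35.agr_ext0_res n s), fun x hx =>
      ht2 x (hx.mono (H35.le_bnd_of_mem (h1 hh n)))⟩
  -- (2) the open sets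
  have hcode : ∀ k, Measurable fun h : Ult B => enc _ (codeSet (mlev (bnd S1) wS k)
      (Gop (fun σ τ => F σ τ ∈ h) (fun τ σ => G τ σ ∈ h) k)) := by
    intro k
    refine meas_enc fun c => ms_fun (fun t => ?_) c
    have h1 : {h : Ult B | codeSet (mlev (bnd S1) wS k)
        (Gop (fun σ τ => F σ τ ∈ h) (fun τ σ => G τ σ ∈ h) k) t = true} =
        {h | ∀ x, Agr (mlev (bnd S1) wS k) x (ext0 t) →
          x ∈ Gop (fun σ τ => F σ τ ∈ h) (fun τ σ => G τ σ ∈ h) k} := by
      ext h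
      exact decide_eq_true_iff
    rw [h1]
    exact ms_sub _ _ _
  obtain ⟨b2, hb2, hb2', S2, hS2, hc2⟩ := capture hB hcode hb1
  obtain ⟨θ, hθc, hθi, hθ⟩ := H35.exists_perfect (bnd S1) wS (H35.le_bnd S1) S2 hS2
  have hmem : ∀ᶠ h in ae B, b2 ∈ h → ∀ y n,
      θ y ∈ Gop (fun σ τ => F σ τ ∈ h) (fun τ σ => G τ σ ∈ h) n := by
    filter_upwards [hc2, hD, hFG] with h h1 h2 h3 hh
    have h4 := h.mono hb2' hh
    exact hθ _ (hSaa _ _ (h3 (h.mono hb1' h4))).1 (h2 h4) (h1 hh)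
  -- (3) the map
  have hg : ∀ᶠ h in ae B, b2 ∈ h → Continuous (gh F θ h) ∧ Function.Injective (gh F θ h) ∧
      ∀ y v, Lim (fun σ τ => F σ τ ∈ h) (θ y) v → v = gh F θ h y := by
    filter_upwards [hmem, hFG] with h h1 h2 hh
    have hR := h2 (h.mono (hb2'.trans hb1') hh)
    obtain ⟨-, -, a3, a4, a5⟩ := hSaa _ _ hR
    have h3 : ∀ y, Lim (fun σ τ => F σ τ ∈ h) (θ y) (gh F θ h y) := by
      intro y
      obtain ⟨v, hv, -⟩ := a3 (θ y) (h1 hh y)
      rwa [gh_eq hR hv]
    refine ⟨?_, ?_, ?_⟩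
    · rw [H35.continuous_iff_agr]
      intro y n
      obtain ⟨m, hm⟩ := a4 (θ y) (gh F θ h y) (h1 hh y) (h3 y) n
      obtain ⟨m', hm'⟩ := H35.continuous_iff_agr.1 hθc y m
      exact ⟨m', fun y' hy' => hm (θ y') _ (h1 hh y') (h3 y') (hm' y' hy')⟩
    · intro y y' hyy
      have h4 := h3 y'
      rw [← hyy] at h4
      exact hθi (a5 _ _ _ (h1 hh y) (h1 hh y') (h3 y) h4)
    · intro y v hv
      exact (gh_eq hR hv).symm
  have hmod : ∀ n, Measurable fun h : Ult B => sInf {m | Mdl (gh F θ h) n m} := fun n =>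
    meas_sInf fun m => ms_all fun p => ms_all fun q => ms_and
      (ms_imp (ms_const _) (ms_gh_agr _ _ _ _)) (ms_imp (ms_gh_agr _ _ _ _) (ms_const _))
  obtain ⟨b3, hb3, hb3', S3, hS3, hc3⟩ := capture hB
    (φ := fun h n => sInf {m | Mdl (gh F θ h) n m}) hmod hb2
  -- (4) the approximations
  have happ : ∀ k, Measurable fun h : Ult B => enc _ (approx (bnd S3 (lev (bnd S3) wS k))
      (lev (bnd S3) wS k) (gh F θ h)) := by
    intro k
    refine meas_enc fun c => ?_
    have h1 : {h : Ult B | approx (bnd S3 (lev (bnd S3) wS k)) (lev (bnd S3) wS k)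
        (gh F θ h) = c} = {h | ∀ s, approx (bnd S3 (lev (bnd S3) wS k)) (lev (bnd S3) wS k)
        (gh F θ h) s = c s} := by
      ext h
      exact funext_iff
    rw [h1]
    exact ms_all fun s => ms_fun (φ := fun h => approx (bnd S3 (lev (bnd S3) wS k))
      (lev (bnd S3) wS k) (gh F θ h) s) (fun i => ms_gh θ (ext0 s) i) (c s)
  obtain ⟨b4, hb4, hb4', S4, hS4, hc4⟩ := capture hB happ hb3
  obtain ⟨X, hX, dec, hdec, hcap⟩ := hSch (bnd S3) wS (H35.le_bnd S3) S4 hS4
  refine ⟨b4, hb4, hb4'.trans (hb3'.trans (hb2'.trans hb1')), θ ∘ X, hθc.comp hX, dec, hdec, ?_⟩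
  filter_upwards [hc4, hc3, hg] with h h1 h2 h3 hh y v hv i
  have h4 := h.mono hb4' hh
  obtain ⟨k1, k2, k3⟩ := h3 (h.mono hb3' h4)
  have hM : ∀ n, Mdl (gh F θ h) n (sInf {m | Mdl (gh F θ h) n m}) := fun n =>
    Nat.sInf_mem (s := {m | Mdl (gh F θ h) n m}) (exists_mdl k1 k2 n)
  have hMod : Mod (bnd S3) (gh F θ h) :=
    mod_of_mdl k1 hM fun n => H35.le_bnd_of_mem (h2 h4 n)
  rw [k3 (X y) v hv]
  exact hcap _ ⟨hMod, h1 hh⟩ y i

end Pool.Agent.Lib.MP_a78e1f_lc.H9
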