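import Pool.Agent.Lib.MP_a78e1f_lc.K.Iface
import Pool.Agent.Lib.MP_6d445e_gt.H63.Meas

/-!
Module SACKP (helper9): the Sacks property.
-/

universe u v w

open Cardinal Filter MeasureTheory

namespace Pool.Agent.Lib.MP_a78e1f_lc.H9

open Pool.Agent.Lib.MP_100a6c_lc
open Pool.Agent.Lib.MP_e6fef2_lc
open Pool.Agent.Lib.MP_6d445e_gt
open Pool.Agent.Lib.MP_a78e1f_lc

/-- The code of a finite set. -/
def cdS (T : Finset ℕ) : ℕ := Finset.equivBitIndices.symm T

theorem dS_cdS (T : Finset ℕ) : dS (cdS T) = T := Equiv.apply_symm_apply _ _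

theorem dS_inj {m n : ℕ} (h : dS m = dS n) : m = n := Finset.equivBitIndices.injective h

theorem isCE_id (B : Type u) [CompleteBooleanAlgebra B] : IsCE (fun b : B => b) :=
  ⟨Function.injective_id, fun _ => rfl, fun _ => sSup_eq_iSup⟩

theorem countable_in' {N : Set El.{u}} (hc : N.Countable) (T : Type u) :
    Countable {t : T // In N t} := by
  have h0 : Countable N := hc.to_subtype
  refine Function.Injective.countable
    (f := fun φ : {t : T // In N t} => (⟨⟨T, φ.1⟩, φ.2⟩ : N)) ?_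
  intro φ ψ h
  have h1 : (⟨T, φ.1⟩ : El.{u}) = ⟨T, ψ.1⟩ := congrArg Subtype.val h
  exact Subtype.ext (eq_of_heq (Sigma.mk.inj h1).2)

section

variable {B : Type u} [CompleteBooleanAlgebra B]

/-- The name of the singleton of the value of `F`. -/
def sgF (F : ℕ → ℕ → B) (p m : ℕ) : B := ⨆ i, ⨆ _ : dS m = {i}, F p i

theorem sgF_mem {F : ℕ → ℕ → B} (hF : IsFN F) : ∀ᶠ h in ae B, ∀ p m, sgF F p m ∈ h ↔
    m = cdS {fv F h p} := by
  have h1 : ∀ᶠ h in ae B, ∀ p m, sgF F p m ∈ h ↔ ∃ i, dS m = {i} ∧ F p i ∈ h := by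
    refine ae_all fun p => ae_all fun m => ?_
    have h2 : ∀ᶠ h in ae B, ∀ i, (⨆ _ : dS m = {i}, F p i) ∈ h ↔ ∃ _ : dS m = {i}, F p i ∈ h :=
      ae_all fun i => ae_iSup fun _ : dS m = {i} => F p i
    filter_upwards [h2, ae_iSup fun i => ⨆ _ : dS m = {i}, F p i] with h h3 h4
    unfold sgF
    rw [h4]
    exact exists_congr fun i => (h3 i).trans exists_prop
  filter_upwards [h1, hF] with h h2 h3 p m
  rw [h2]
  constructor
  · rintro ⟨i, h4, h5⟩
    rw [H63.fv_eq h3 h5]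
    exact dS_inj (h4.trans (dS_cdS _).symm)
  · rintro rfl
    exact ⟨fv F h p, dS_cdS _, H63.fv_mem (h3 p).exists⟩

theorem isFN_sgF {F : ℕ → ℕ → B} (hF : IsFN F) : IsFN (sgF F) := by
  filter_upwards [sgF_mem hF] with h h1 p
  exact ⟨_, (h1 p _).2 rfl, fun m hm => (h1 p m).1 hm⟩

theorem fv_sgF {F : ℕ → ℕ → B} (hF : IsFN F) : ∀ᶠ h in ae B, ∀ p,
    dS (fv (sgF F) h p) = {fv F h p} := by
  filter_upwards [sgF_mem hF, isFN_sgF hF] with h h1 h2 p
  rw [H63.fv_eq h2 ((h1 p _).2 rfl), dS_cdS]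

end

open Classical in
/-- The name of an actual function. -/
noncomputable def cst (A : Type u) [CompleteBooleanAlgebra A] (s : ℕ → ℕ) (p m : ℕ) : A :=
  if m = s p then ⊤ else ⊥

theorem cst_mem {A : Type u} [CompleteBooleanAlgebra A] (s : ℕ → ℕ) (g : Ult A) (p m : ℕ) :
    cst A s p m ∈ g ↔ m = s p := by
  unfold cst
  split_ifs with h
  · exact ⟨fun _ => h, fun _ => g.mem_top⟩
  · exact ⟨fun h' => absurd h' g.not_bot, fun h' => absurd h' h⟩

theorem isFN_cst (A : Type u) [CompleteBooleanAlgebra A] (s : ℕ → ℕ) : IsFN (cst A s) :=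
  Filter.Eventually.of_forall fun g p => ⟨s p, (cst_mem s g p _).2 rfl, fun m hm =>
    (cst_mem s g p m).1 hm⟩

/-- **SACKP**. -/
theorem sackp (hItp : ItpfStatement.{u}) (hLb : LbfStatement.{u}) : SackpStatement.{u} := by
  intro A B _ _ f hf hne h2 hPR F hF b hb
  classical
  obtain ⟨-, -, -, -, -, -, I7, I8, -, I10, -, I12⟩ := hItp A B f hf
  obtain ⟨-, -, -, -, -, -, -, -, -, J10, -, -⟩ := hItp B B (fun b => b) (isCE_id B)
  have hal := all_alg A B f hf
  -- the only ultrafilter of `A`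
  have hsub : ∀ g g' : Ult A, g = g' := by
    intro g g'
    have h3 : ∀ g g' : Ult A, ∀ a, a ∈ g → a ∈ g' := fun g g' a ha => by
      rcases h2 a with rfl | rfl
      · exact absurd ha g.not_bot
      · exact g'.mem_top
    exact Ult.ext (Set.ext fun a => ⟨h3 g g' a, h3 g' g a⟩)
  obtain ⟨g0, -, -⟩ := exists_of_ae (A := A) (X := fun _ => True)
    (Filter.Eventually.of_forall fun _ => trivial) (a := ⊤) hne.symm
  have hA : ∀ {P : Ult A → Prop}, (∀ᶠ g in ae A, P g) → P g0 := by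
    intro P h
    obtain ⟨g, -, hg⟩ := exists_of_ae h (a := (⊤ : A)) hne.symm
    rwa [hsub g g0] at hg
  have htop : ∀ a : A, a ∈ g0 → a = ⊤ := fun a ha =>
    (h2 a).resolve_left fun h => g0.not_bot (h ▸ ha)
  -- the interpretation of `F1`
  have hF1 := isFN_sgF hF
  have hSl1 : SlF 0 b (sgF F) := by
    filter_upwards [fv_sgF hF] with h h3 _ p
    rw [h3 p, Finset.card_singleton, pow_zero]
  have hSl1' : ∃ j, SlF j ⊤ (sgF F) := ⟨0, by
    filter_upwards [fv_sgF hF] with h h3 _ p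
    rw [h3 p, Finset.card_singleton, pow_zero]⟩
  obtain ⟨Z, hZ, hZle, -⟩ := hLb A B f hf b (sgF F) (cst A fun _ => 0) hF1 (isFN_cst A _)
  have hitp : itpF f b (sgF F) Z = ⊤ := by
    rcases h2 (prj f b) with h3 | h3
    · exact absurd ((hal.2.2.2.2.2.2.2.2.2.2.2.2.2.2.2.2.2.1 b).1 h3) hb
    · rw [h3] at hZle
      exact top_unique hZle
  have hSlZ : SlF 0 ⊤ Z := by
    have h3 := I7 b (sgF F) Z 0 hF1 hZ hSl1
    rwa [hitp] at h3
  -- the model
  obtain ⟨N, hNc, hZN, hN⟩ := all_club.{u}.1 _ hPR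
    {(⟨B, b⟩ : El.{u}), ⟨ℕ → ℕ → B, sgF F⟩, ⟨ℕ → ℕ → A, Z⟩, ⟨A, ⊤⟩}
    (Set.toFinite _).countable
  have hNb : In N b := hZN (by simp)
  have hNF : In N (sgF F) := hZN (by simp)
  have hNZ : In N Z := hZN (by simp)
  have hNt : In N (⊤ : A) := hZN (by simp)
  have hcA := countable_in' hNc (ℕ → ℕ → A)
  let Xs := {x : {x : ℕ → ℕ → A // In N x} // IsFN x.1 ∧ ∃ j, SlF j ⊤ x.1}
  have hXc : Countable Xs := inferInstanceAs (Countable
    {x : {x : ℕ → ℕ → A // In N x} // IsFN x.1 ∧ ∃ j, SlF j ⊤ x.1})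
  have hXn : Nonempty Xs := ⟨⟨⟨Z, hNZ⟩, hZ, 0, hSlZ⟩⟩
  obtain ⟨e, he⟩ := exists_surjective_nat Xs
  choose c hc using fun x : Xs => x.2.2
  -- the slalom
  let T : ℕ → Finset ℕ := fun p =>
    ((Finset.range (p + 1)).filter fun j => c (e j) ≤ p).biUnion
      (fun j => dS (fv (e j).1.1 g0 p)) ∪ dS (fv Z g0 p)
  have hcard : ∀ p, (T p).card ≤ wS p := by
    intro p
    refine (Finset.card_union_le _ _).trans ?_
    have h3 : (dS (fv Z g0 p)).card ≤ 1 := by
      have h4 := (hA hSlZ) g0.mem_top p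
      rwa [pow_zero] at h4
    have h4 : (((Finset.range (p + 1)).filter fun j => c (e j) ≤ p).biUnion
        fun j => dS (fv (e j).1.1 g0 p)).card ≤ (p + 2) ^ (p + 1) := by
      refine Finset.card_biUnion_le.trans ?_
      have h5 : ∀ j ∈ (Finset.range (p + 1)).filter fun j => c (e j) ≤ p,
          (dS (fv (e j).1.1 g0 p)).card ≤ (p + 2) ^ p := by
        intro j hj
        have h6 := (hA (hc (e j))) g0.mem_top p
        exact h6.trans (Nat.pow_le_pow_right (by omega) (Finset.mem_filter.1 hj).2)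
      refine (Finset.sum_le_card_nsmul _ _ _ h5).trans ?_
      rw [smul_eq_mul, pow_succ, mul_comm]
      refine Nat.mul_le_mul_left _ ?_
      refine (Finset.card_filter_le _ _).trans ?_
      rw [Finset.card_range]
      omega
    unfold wS
    exact add_le_add h4 h3
  let S : ℕ → ℕ → A := cst A fun p => cdS (T p)
  have hS : IsFN S := isFN_cst A _
  have hfvS : ∀ p, fv S g0 p = cdS (T p) := fun p =>
    H63.fv_eq (hA hS) ((cst_mem _ g0 p _).2 rfl)
  have hgen : gen A N = ⊤ := by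
    unfold gen
    simp only [iInf_eq_top]
    intro D hD hs
    have h3 : (⊤ : A) ∈ D := by
      by_contra hcon
      have h4 : sSup D ≤ ⊥ := sSup_le fun d hd => by
        rcases h2 d with h5 | h5
        · exact h5.le
        · exact absurd (h5 ▸ hd) hcon
      rw [hs] at h4
      exact hne (le_antisymm bot_le h4)
    exact top_unique (le_iSup_of_le ⊤ (le_iSup_of_le h3 (le_iSup_of_le hNt le_rfl)))
  have hgcF : gcF N S = ⊤ := by
    refine htop _ ((hA (I12 N hNc S)).2 ⟨by rw [hgen]; exact g0.mem_top, ?_⟩)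
    intro x hx hxF hxS
    obtain ⟨j, hj⟩ := he ⟨⟨x, hx⟩, hxF, hxS⟩
    refine ⟨max j (c (e j)), (hA (I10 _ S x hS hxF)).2 fun p hp => ?_⟩
    rw [hfvS, dS_cdS]
    intro i hi
    refine Finset.mem_union_left _ (Finset.mem_biUnion.2 ⟨j, Finset.mem_filter.2
      ⟨Finset.mem_range.2 ?_, (le_max_right _ _).trans hp⟩, ?_⟩)
    · have := (le_max_left _ _).trans hp
      omega
    · rw [hj]
      exact hi
  have hcapZ : capF 0 S Z = ⊤ := by
    refine htop _ ((hA (I10 0 S Z hS hZ)).2 fun p _ => ?_)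
    rw [hfvS, dS_cdS]
    exact Finset.subset_union_right
  have hmain := hN S b (sgF F) Z hS hNb hNF hF1 hSl1' hNZ hZ
  rw [hgcF, hitp, hcapZ, inf_top_eq, inf_top_eq] at hmain
  have hfS : IsFN fun p m => f (S p m) := I8 S hS
  refine ⟨gcF N (fun p m => f (S p m)) ⊓ b ⊓ capF 0 (fun p m => f (S p m)) (sgF F), ?_,
    inf_le_left.trans inf_le_right, T, hcard, ?_⟩
  · intro h3
    rw [h3, (hal.2.2.2.2.2.2.2.2.2.2.2.2.2.2.2.2.2.1 ⊥).2 rfl] at hmain
    exact hne (le_antisymm bot_le hmain)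
  · filter_upwards [J10 0 (fun p m => f (S p m)) (sgF F) hfS hF1, fv_sgF hF, hfS]
      with h h3 h4 h5 hh p
    have h6 := h3.1 (h.mem_inf.1 hh).2 p (Nat.zero_le _)
    rw [h4 p] at h6
    have h7 : fv (fun p m => f (S p m)) h p = cdS (T p) := by
      refine H63.fv_eq h5 ?_
      show f (S p (cdS (T p))) ∈ h
      have h8 : S p (cdS (T p)) = ⊤ := if_pos rfl
      rw [h8, hal.1]
      exact h.mem_top
    rw [h7, dS_cdS] at h6
    exact h6 (Finset.mem_singleton_self _)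

end Pool.Agent.Lib.MP_a78e1f_lc.H9
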